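import Pool.Agent.R65.HP.Pos

/-!
# Positivity of the Gauss-Bonnet-Chern integrand for strongly positive curvature with a lower bound
of the curvature operator

Let `R` be an algebraic curvature tensor on a Euclidean space of dimension `2 m` and let `F` be one
with nonnegative curvature operator (for instance `F = κ R₀`, of constant curvature `κ > 0`).
Suppose

* the curvature operator of `(m - 1) R` is at least the one of `-F`, and
* `R - F` is strongly nonnegative: for some `4`-form `ω` the symmetric form `R - F + ω` is
  nonnegative on all bivectors.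

Then the Gauss-Bonnet-Chern integrand of `R` is at least the one of `F`; in particular it is at least
its value for constant curvature `ε` if `F ≥ ε R₀`. No upper bound of the curvature and no bound on
the size of the `4`-form is assumed. For `F = κ R₀`: the Euler characteristic is positive for closed
manifolds such that `R - κ` is strongly nonnegative and all eigenvalues of the curvature operator are
at least `-κ / (m - 1)`, `κ > 0` (sectional curvature alone, or strong positivity alone, is not known
to suffice), and for `R = N + κ R₀ + ∑ skewCurv (A s)`, where `N` is nonnegative on all bivectors and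
the `A s` are any number of skew forms with `(m - 1) ∑ |A s|² ≤ m κ`; in dimension six the last bound
cannot be omitted (`TwoSkewForms`, for three skew forms).

The proof (`Pool/Agent/R65/HP/`): put `P = F + (m - 1) R` and let `t_k` be the mixed integrand of `k`
factors `F` and `m - k` factors `P`, so that `(m - 1) ^ m` times the integrand of `R` is
`∑ (-1) ^ k (m choose k) t_k`. The difference `t_k - m t_(k + 1)` is `m - 1` times the mixed integrand
of `R - F` and `m - 1` tensors with the Bianchi identity and nonnegative curvature operator; adding
the `4`-form does not change it, so it is nonnegative, and summation by parts gives the bound.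
-/

namespace Pool.Agent.Results.MP_4a593f_gt.StronglyPositivePinched

open MeasureTheory
open Pool.Agent.R65.HP
open Pool.Agent.W666.GB (AlgCurv gbc roundGB CurvField roundGB_pos)
open Pool.Agent.W669.HD (unitT OpNonneg)

/-- Positivity of the Gauss-Bonnet-Chern integrand for strongly positive curvature with a lower
bound of the curvature operator. -/
theorem result :
    -- comparison with a tensor `F` whose curvature operator is nonnegative
    (∀ (m : ℕ) (V : Type) [NormedAddCommGroup V] [InnerProductSpace ℝ V]
      (e : OrthonormalBasis (Fin m × Bool) ℝ V) (R F : V → V → V → V → ℝ),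
      AlgCurv R → ComparesPos m F R → gbc e F ≤ gbc e R ∧ 0 ≤ gbc e F ∧
        ∀ ε : ℝ, 1 ≤ m → 0 ≤ ε → OpNonneg (fun x y z w => F x y z w - ε * unitT x y z w) →
          roundGB m ε ≤ gbc e R) ∧
    -- comparison with the constant curvature `κ`
    (∀ (m : ℕ) (V : Type) [NormedAddCommGroup V] [InnerProductSpace ℝ V]
      (e : OrthonormalBasis (Fin m × Bool) ℝ V) (R : V → V → V → V → ℝ) (κ : ℝ),
      AlgCurv R → 0 ≤ κ → PinchedPos m κ R → roundGB m κ ≤ gbc e R) ∧
    -- any number of skew forms
    (∀ (m : ℕ) (V : Type) [NormedAddCommGroup V] [InnerProductSpace ℝ V]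
      (e : OrthonormalBasis (Fin m × Bool) ℝ V) (R : V → V → V → V → ℝ) (κ : ℝ),
      AlgCurv R → 1 ≤ m → 0 ≤ κ → ManySkewPos m κ R → roundGB m κ ≤ gbc e R) ∧
    -- the integrated form
    (∀ (m : ℕ) (M : Type) [MeasurableSpace M] (μ : Measure M) (K : CurvField m M),
      (∀ p, ∃ F, ComparesPos m F (K.R p)) → 0 ≤ ∫ p, K.gb p ∂μ) ∧
    (∀ (m : ℕ) (M : Type) [MeasurableSpace M] (μ : Measure M) (K : CurvField m M) (κ : M → ℝ),
      μ ≠ 0 → Integrable K.gb μ → (∀ p, 0 < κ p ∧ PinchedPos m (κ p) (K.R p)) →
        0 < ∫ p, K.gb p ∂μ) := by
  refine ⟨?_, ?_, ?_, ?_, ?_⟩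
  · intro m V _ _ e R F hR h
    exact ⟨(compares_pos e hR h).1, (compares_pos e hR h).2,
      fun ε hm hε hF => compares_pos_eps e hm hR h hε hF⟩
  · intro m V _ _ e R κ hR hκ h
    exact pinched_pos_bound e hR hκ h
  · intro m V _ _ e R κ hR hm hκ h
    exact pinched_pos_bound e hR hκ (many_pinched_pos e hm h)
  · intro m M _ μ K h
    refine integral_nonneg fun p => ?_
    obtain ⟨F, hF⟩ := h p
    have h1 := compares_pos (K.e p) (K.curv p) hF
    exact h1.2.trans h1.1
  · intro m M _ μ K κ hμ hi h
    have h0 : ∀ p, 0 < K.gb p := fun p =>
      (roundGB_pos (m := m) (h p).1).trans_le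
        (pinched_pos_bound (K.e p) (K.curv p) (h p).1.le (h p).2)
    rw [integral_pos_iff_support_of_nonneg (fun p => (h0 p).le) hi]
    have h1 : Function.support K.gb = Set.univ := by
      ext p
      simp [(h0 p).ne']
    rw [h1]
    exact pos_iff_ne_zero.mpr (by simpa using hμ)

end Pool.Agent.Results.MP_4a593f_gt.StronglyPositivePinched
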